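import Pool.Agent.H84.SS.Targets

/-!
# M_PDX: the conditional correlations are positive definite
-/

set_option autoImplicit false

open MeasureTheory Filter Topology Set ProbabilityTheory
open scoped ENNReal ComplexConjugate
open Pool.Agent.H84.SS
open Pool.Agent.H85.RT (avg GoodWeight Good)
open Pool.Agent.H94.RTB (LGood PD)

universe u v

namespace Pool.Agent.H36.SS

theorem fp_meas {X : Type u} [MeasurableSpace X] (T : X ≃ᵐ X) {f : X → ℂ} (hf : Measurable f)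
    (b b' : ℕ) : Measurable (fp T f b b') := by
  have h1 : ∀ b : ℕ, Measurable fun x => f (T^[b] x) := fun b =>
    hf.comp (T.measurable.iterate b)
  exact (h1 b).mul (Complex.continuous_conj.measurable.comp (h1 b'))

theorem fp_bdd {X : Type u} (T : X → X) {f : X → ℂ} (hb : ∀ x, ‖f x‖ ≤ 1) (b b' : ℕ) (x : X) :
    ‖fp T f b b' x‖ ≤ 1 := by
  unfold fp
  rw [norm_mul, RCLike.norm_conj]
  exact mul_le_one₀ (hb _) (norm_nonneg _) (hb _)

theorem fp_int {X : Type u} [MeasurableSpace X] (μ : Measure X) [IsProbabilityMeasure μ]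
    (T : X ≃ᵐ X) {f : X → ℂ} (hf : Measurable f) (hb : ∀ x, ‖f x‖ ≤ 1) (b b' : ℕ) :
    Integrable (fp T f b b') μ :=
  Integrable.of_bound (fp_meas T hf b b').aestronglyMeasurable 1
    (ae_of_all _ (fp_bdd T hb b b'))

/-- the quadratic form with fixed size -/
noncomputable def Qf {X : Type u} [MeasurableSpace X] (μ : Measure X) (T : X ≃ᵐ X) (f : X → ℂ)
    (K : ℕ) (x : X) (u : Fin K → ℂ) : ℂ :=
  ∑ p : Fin K × Fin K, u p.1 * conj (u p.2) * cf μ T f p.1 p.2 x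

theorem quad_ae {X : Type u} [MeasurableSpace X] (μ : Measure X) [IsProbabilityMeasure μ]
    (T : X ≃ᵐ X) {f : X → ℂ} (hf : Measurable f) (hb : ∀ x, ‖f x‖ ≤ 1) {K : ℕ}
    (u : Fin K → ℂ) : ∀ᵐ x ∂μ, 0 ≤ (Qf μ T f K x u).re ∧ (Qf μ T f K x u).im = 0 := by
  have hgf : ∀ x, (((‖∑ i : Fin K, u i * f (T^[i] x)‖ ^ 2 : ℝ)) : ℂ) =
      ∑ p : Fin K × Fin K, (u p.1 * conj (u p.2)) * fp T f p.1 p.2 x := by
    intro x
    rw [← Complex.normSq_eq_norm_sq, ← Complex.mul_conj, map_sum, Finset.sum_mul_sum,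
      Fintype.sum_prod_type]
    refine Finset.sum_congr rfl fun i _ => Finset.sum_congr rfl fun j _ => ?_
    unfold fp
    rw [map_mul]
    ring
  have hg : (fun x => (((‖∑ i : Fin K, u i * f (T^[i] x)‖ ^ 2 : ℝ)) : ℂ)) =
      ∑ p : Fin K × Fin K, (u p.1 * conj (u p.2)) • fp T f p.1 p.2 := by
    funext x
    rw [hgf x, Finset.sum_apply]
    rfl
  have hci : Integrable (fun x => (((‖∑ i : Fin K, u i * f (T^[i] x)‖ ^ 2 : ℝ)) : ℂ)) μ := by
    rw [hg]
    exact integrable_finsetSum' _ fun p _ => (fp_int μ T hf hb _ _).smul _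
  have hgi : Integrable (fun x => ‖∑ i : Fin K, u i * f (T^[i] x)‖ ^ 2) μ := by
    exact hci.re.congr (ae_of_all _ fun x => Complex.ofReal_re _)
  have h1 := condExp_finsetSum (μ := μ) (s := Finset.univ)
    (f := fun p : Fin K × Fin K => (u p.1 * conj (u p.2)) • fp T f p.1 p.2)
    (fun p _ => (fp_int μ T hf hb _ _).smul _) (MeasurableSpace.invariants T)
  have h2 : ∀ p : Fin K × Fin K,
      μ[(u p.1 * conj (u p.2)) • fp T f p.1 p.2 | MeasurableSpace.invariants T] =ᵐ[μ]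
      (u p.1 * conj (u p.2)) • μ[fp T f p.1 p.2 | MeasurableSpace.invariants T] :=
    fun p => condExp_smul _ _ _
  have h3 := Complex.ofRealCLM.comp_condExp_comm (m := MeasurableSpace.invariants T) hgi
  have h4 : 0 ≤ᵐ[μ] μ[fun x => ‖∑ i : Fin K, u i * f (T^[i] x)‖ ^ 2 |
      MeasurableSpace.invariants T] :=
    condExp_nonneg (ae_of_all _ fun x => sq_nonneg _)
  have h5 : (Complex.ofRealCLM ∘ fun x => ‖∑ i : Fin K, u i * f (T^[i] x)‖ ^ 2) =
      ∑ p : Fin K × Fin K, (u p.1 * conj (u p.2)) • fp T f p.1 p.2 := hg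
  rw [h5] at h3
  filter_upwards [h1, ae_all_iff.2 h2, h3, h4] with x e1 e2 e3 e4
  have e5 : Qf μ T f K x u = (((μ[fun x => ‖∑ i : Fin K, u i * f (T^[i] x)‖ ^ 2 |
      MeasurableSpace.invariants T]) x : ℝ) : ℂ) := by
    refine Eq.trans ?_ (Eq.trans (e3.trans e1).symm rfl)
    rw [Finset.sum_apply]
    unfold Qf
    refine Finset.sum_congr rfl fun p _ => ?_
    rw [e2 p]
    rfl
  rw [e5]
  exact ⟨by rw [Complex.ofReal_re]; exact e4, Complex.ofReal_im _⟩

theorem Qf_cont {X : Type u} [MeasurableSpace X] (μ : Measure X) (T : X ≃ᵐ X) (f : X → ℂ)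
    (K : ℕ) (x : X) : Continuous (Qf μ T f K x) := by
  unfold Qf
  refine continuous_finsetSum _ fun p _ => ?_
  exact ((continuous_apply p.1).mul (Complex.continuous_conj.comp (continuous_apply p.2))).mul
    continuous_const

theorem pf_PDX (h1 : M_PFE.{u}) (h2 : M_CTS.{u}) : M_PDX.{u} := by
  intro X _ μ _ T f hT hf hb
  have hq : ∀ K : ℕ, ∀ᵐ x ∂μ, ∀ u : Fin K → ℂ, 0 ≤ (Qf μ T f K x u).re ∧
      (Qf μ T f K x u).im = 0 := by
    intro K
    have a1 := h2 X μ (Fin K) (fun _ _ => 0) (fun x u => (Qf μ T f K x u).re)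
      (fun x => continuous_const) (fun x => Complex.continuous_re.comp (Qf_cont μ T f K x))
      (fun u => (quad_ae μ T hf hb u).mono fun x hx => hx.1)
    have a2 := h2 X μ (Fin K) (fun _ _ => 0) (fun x u => (Qf μ T f K x u).im)
      (fun x => continuous_const) (fun x => Complex.continuous_im.comp (Qf_cont μ T f K x))
      (fun u => (quad_ae μ T hf hb u).mono fun x hx => hx.2.ge)
    have a3 := h2 X μ (Fin K) (fun x u => (Qf μ T f K x u).im) (fun _ _ => 0)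
      (fun x => Complex.continuous_im.comp (Qf_cont μ T f K x)) (fun x => continuous_const)
      (fun u => (quad_ae μ T hf hb u).mono fun x hx => hx.2.le)
    filter_upwards [a1, a2, a3] with x b1 b2 b3 u
    exact ⟨b1 u, le_antisymm (b3 u) (b2 u)⟩
  filter_upwards [ae_all_iff.2 hq, h1 X μ T f hT hf hb] with x hx hp s c
  obtain ⟨K₀, hK⟩ : ∃ K₀ : ℕ, ∀ i ∈ s, -(K₀ : ℤ) ≤ i ∧ i < K₀ := by
    refine ⟨∑ i ∈ s, (i.natAbs + 1), fun i hi => ?_⟩
    have h : i.natAbs + 1 ≤ ∑ i ∈ s, (i.natAbs + 1) :=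
      Finset.single_le_sum (f := fun i : ℤ => i.natAbs + 1) (fun _ _ => Nat.zero_le _) hi
    omega
  have hmain : ∀ F : ℤ → ℤ → ℂ, (∀ i j, i ∉ s → F i j = 0) → (∀ i j, j ∉ s → F i j = 0) →
      ∑ i ∈ s, ∑ j ∈ s, F i j = ∑ p : Fin (2 * K₀) × Fin (2 * K₀), F (p.1 - K₀) (p.2 - K₀) := by
    intro F hF1 hF2
    rw [Fintype.sum_prod_type, ← Finset.sum_product', ← Fintype.sum_prod_type']
    symm
    have hinj : Set.InjOn (fun p : Fin (2 * K₀) × Fin (2 * K₀) =>
        (((p.1 : ℕ) : ℤ) - K₀, ((p.2 : ℕ) : ℤ) - K₀))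
        ↑(Finset.univ : Finset (Fin (2 * K₀) × Fin (2 * K₀))) := by
      intro p _ q _ hpq
      simp only [Prod.mk.injEq] at hpq
      refine Prod.ext (Fin.ext ?_) (Fin.ext ?_) <;> omega
    rw [← Finset.sum_image (f := fun q : ℤ × ℤ => F q.1 q.2) hinj]
    symm
    refine Finset.sum_subset ?_ ?_
    · intro q hq
      rw [Finset.mem_product] at hq
      have h1 := hK _ hq.1
      have h2 := hK _ hq.2
      rw [Finset.mem_image]
      refine ⟨(⟨(q.1 + K₀).toNat, by omega⟩, ⟨(q.2 + K₀).toNat, by omega⟩),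
        Finset.mem_univ _, ?_⟩
      refine Prod.ext ?_ ?_
      · show (((q.1 + K₀).toNat : ℕ) : ℤ) - K₀ = q.1
        omega
      · show (((q.2 + K₀).toNat : ℕ) : ℤ) - K₀ = q.2
        omega
    · intro q _ hq
      rw [Finset.mem_product, not_and_or] at hq
      rcases hq with hq | hq
      · exact hF1 _ _ hq
      · exact hF2 _ _ hq
  set u : Fin (2 * K₀) → ℂ := fun k => if ((k : ℕ) : ℤ) - K₀ ∈ s then c (((k : ℕ) : ℤ) - K₀) else 0
    with hu
  obtain ⟨q1, q2⟩ := hx (2 * K₀) u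
  refine ⟨(Qf μ T f (2 * K₀) x u).re, q1, ?_⟩
  have e1 : ∑ i ∈ s, ∑ j ∈ s, c i * conj (c j) * pf μ T f x (i - j) =
      ∑ i ∈ s, ∑ j ∈ s, (if i ∈ s then c i else 0) * conj (if j ∈ s then c j else 0) *
        pf μ T f x (i - j) := by
    refine Finset.sum_congr rfl fun i hi => Finset.sum_congr rfl fun j hj => ?_
    rw [if_pos hi, if_pos hj]
  rw [e1, hmain (fun i j => (if i ∈ s then c i else 0) * conj (if j ∈ s then c j else 0) *
    pf μ T f x (i - j)) (fun i j hi => by simp [hi]) (fun i j hj => by simp [hj])]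
  have e2 : ∑ p : Fin (2 * K₀) × Fin (2 * K₀),
      (if ((p.1 : ℕ) : ℤ) - K₀ ∈ s then c (((p.1 : ℕ) : ℤ) - K₀) else 0) *
      conj (if ((p.2 : ℕ) : ℤ) - K₀ ∈ s then c (((p.2 : ℕ) : ℤ) - K₀) else 0) *
      pf μ T f x (((p.1 : ℕ) : ℤ) - K₀ - (((p.2 : ℕ) : ℤ) - K₀)) = Qf μ T f (2 * K₀) x u := by
    unfold Qf
    refine Finset.sum_congr rfl fun p _ => ?_
    rw [hp.1 p.1 p.2]
    have : ((p.1 : ℕ) : ℤ) - K₀ - (((p.2 : ℕ) : ℤ) - K₀) = ((p.1 : ℕ) : ℤ) - (p.2 : ℕ) := by ring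
    rw [this]
  refine e2.trans ?_
  apply Complex.ext
  · rw [Complex.ofReal_re]
  · rw [Complex.ofReal_im, q2]

end Pool.Agent.H36.SS
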